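import Mathlib

/-! Tensor powers of multisets: a multiset of positive real numbers is determined by each of its
tensor powers. -/

set_option autoImplicit false

namespace Pool.Agent.Helper382_Ord

open Polynomial

/-- The multiset of the `m`-fold products (for the operation `f` with the unit `e`). -/
def power {α : Type} (f : α → α → α) (e : α) : ℕ → Multiset α → Multiset α
  | 0, _ => {e}
  | m + 1, s => (s ×ˢ power f e m s).map fun y => f y.1 y.2

theorem map_prod' {α β γ δ : Type} (f : α → γ) (g : β → δ) (s : Multiset α) (t : Multiset β) :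
    (s ×ˢ t).map (fun y => (f y.1, g y.2)) = s.map f ×ˢ t.map g := by
  induction s using Multiset.induction_on with
  | empty => simp
  | cons a s ih =>
    rw [Multiset.map_cons, Multiset.cons_product, Multiset.map_add, Multiset.cons_product, ih,
      Multiset.map_map, Multiset.map_map]
    rfl

theorem power_map {α β : Type} (f : α → α → α) (e : α) (f' : β → β → β) (e' : β) (g : α → β)
    (he : g e = e') (hf : ∀ x y, g (f x y) = f' (g x) (g y)) (m : ℕ) (s : Multiset α) :
    (power f e m s).map g = power f' e' m (s.map g) := by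
  induction m with
  | zero => simp [power, he]
  | succ m ih =>
    unfold power
    rw [← ih, ← map_prod', Multiset.map_map, Multiset.map_map]
    refine Multiset.map_congr rfl fun y _ => ?_
    exact hf _ _

theorem sum_prod {α β : Type} (f : α → ℝ) (g : β → ℝ) (s : Multiset α) (t : Multiset β) :
    ((s ×ˢ t).map fun y => f y.1 * g y.2).sum = (s.map f).sum * (t.map g).sum := by
  induction s using Multiset.induction_on with
  | empty => simp
  | cons a s ih =>
    rw [Multiset.cons_product, Multiset.map_add, Multiset.sum_add, ih, Multiset.map_cons,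
      Multiset.sum_cons, add_mul, Multiset.map_map]
    congr 1
    rw [← Multiset.sum_map_mul_left]
    rfl

theorem psum_power (k m : ℕ) (N : Multiset ℝ) :
    ((power (· * ·) 1 m N).map fun x => x ^ k).sum = (N.map fun x => x ^ k).sum ^ m := by
  induction m with
  | zero => simp [power]
  | succ m ih =>
    unfold power
    rw [Multiset.map_map]
    have h1 : ((fun x : ℝ => x ^ k) ∘ fun y : ℝ × ℝ => y.1 * y.2) =
        fun y : ℝ × ℝ => y.1 ^ k * y.2 ^ k := by
      funext y
      simp only [Function.comp, mul_pow]
    rw [h1, sum_prod (fun x => x ^ k) (fun x => x ^ k), ih, pow_succ']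

theorem eq_of_psum (N M : Multiset ℝ)
    (h : ∀ k : ℕ, (N.map fun x => x ^ k).sum = (M.map fun x => x ^ k).sum) : N = M := by
  classical
  have hpoly : ∀ q : ℝ[X], (N.map fun x => q.eval x).sum = (M.map fun x => q.eval x).sum := by
    intro q
    induction q using Polynomial.induction_on' with
    | add p q hp hq =>
      simp only [eval_add, Multiset.sum_map_add, hp, hq]
    | monomial n a =>
      simp only [eval_monomial, Multiset.sum_map_mul_left, h]
  ext x₀
  set S : Finset ℝ := (N.toFinset ∪ M.toFinset).erase x₀ with hS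
  set q : ℝ[X] := ∏ y ∈ S, (X - C y) with hq
  have hq0 : q.eval x₀ ≠ 0 := by
    rw [hq, eval_prod, Finset.prod_ne_zero_iff]
    intro y hy
    rw [eval_sub, eval_X, eval_C, sub_ne_zero]
    rw [hS, Finset.mem_erase] at hy
    exact hy.1.symm
  have hz : ∀ y, y ∈ N.toFinset ∪ M.toFinset → y ≠ x₀ → q.eval y = 0 := by
    intro y hy hne
    rw [hq, eval_prod]
    refine Finset.prod_eq_zero (i := y) ?_ (by simp)
    rw [hS, Finset.mem_erase]
    exact ⟨hne, hy⟩
  have hcount : ∀ L : Multiset ℝ, (∀ y ∈ L, y ∈ N.toFinset ∪ M.toFinset) →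
      (L.map fun x => q.eval x).sum = L.count x₀ * q.eval x₀ := by
    intro L hL
    induction L using Multiset.induction_on with
    | empty => simp
    | cons a L ih =>
      rw [Multiset.map_cons, Multiset.sum_cons, ih fun y hy => hL y (Multiset.mem_cons_of_mem hy),
        Multiset.count_cons]
      by_cases ha : x₀ = a
      · rw [if_pos ha, ← ha]
        push_cast
        ring
      · rw [if_neg ha, hz a (hL a (Multiset.mem_cons_self _ _)) fun h => ha h.symm]
        simp
  have h1 := hpoly q
  rw [hcount N fun y hy => Finset.mem_union_left _ (Multiset.mem_toFinset.2 hy),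
    hcount M fun y hy => Finset.mem_union_right _ (Multiset.mem_toFinset.2 hy)] at h1
  exact_mod_cast mul_right_cancel₀ hq0 h1

/-- **roots of tensor powers** -/
theorem power_injective (m : ℕ) (hm : m ≠ 0) (N M : Multiset ℝ) (hN : ∀ x ∈ N, 0 ≤ x)
    (hM : ∀ x ∈ M, 0 ≤ x) (h : power (· * ·) 1 m N = power (· * ·) 1 m M) : N = M := by
  refine eq_of_psum N M fun k => ?_
  have h1 := congrArg (fun L : Multiset ℝ => (L.map fun x => x ^ k).sum) h
  simp only [psum_power] at h1
  refine (pow_left_inj₀ ?_ ?_ hm).1 h1
  · refine Multiset.sum_nonneg fun y hy => ?_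
    obtain ⟨x, hx, rfl⟩ := Multiset.mem_map.1 hy
    exact pow_nonneg (hN x hx) k
  · refine Multiset.sum_nonneg fun y hy => ?_
    obtain ⟨x, hx, rfl⟩ := Multiset.mem_map.1 hy
    exact pow_nonneg (hM x hx) k

end Pool.Agent.Helper382_Ord
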