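import Pool.Agent.W850.Ord.LowDens
import Pool.Agent.Helper382_Ord.Power

/-! The class of compatible systems generated by motives with multiplications under direct sums,
tensor products, Tate twists, duals, direct summands and roots of tensor powers. -/

set_option autoImplicit false
set_option linter.all false

namespace Pool.Agent.Helper382_Ord

open NumberField IsDedekindDomain Polynomial Filter Topology
open Pool.Agent.W401.Cheb Pool.Agent.W528.Ord Pool.Agent.R915.Ord Pool.Agent.W850.Ord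
open MultSystem (mv IsDeg1 IsOver norm_mem)

variable {K : Type} [Field K] [NumberField K] {ℓ : ℕ} [Fact ℓ.Prime] {ι : Type}

/-- The Newton polygon of the system with the Frobenius eigenvalues `R v` lies on or above the
polygon with slopes `H`, at all places of degree one outside `T` (Mazur's inequality). -/
def Mazur (T : Finset ℕ) (R : HeightOneSpectrum (𝓞 K) → Multiset (AlgebraicClosure K))
    (H : Multiset ℕ) : Prop :=
  ∀ v : HeightOneSpectrum (𝓞 K), IsDeg1 T v → ∃ P : Polynomial (𝓞 (AlgebraicClosure K)),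
    rts P = R v ∧ ∀ Q : Ideal (𝓞 (AlgebraicClosure K)), IsOver Q v →
      LiesAbove Q (Ideal.absNorm v.asIdeal) P H

/-- The class of the systems over `K` (with Frobenius eigenvalues `R v` at the places `v` and Hodge
slopes `H`) generated by the pieces of the motives `A i` under direct sums, tensor products, Tate
twists, duals, direct summands and roots of tensor powers: if a tensor power of a system is in the
class, so is the system. Only the places of degree one outside `T` matter. -/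
inductive Generated (A : ι → MotSystem K ℓ) (T : Finset ℕ) :
    (HeightOneSpectrum (𝓞 K) → Multiset (AlgebraicClosure K)) → Multiset ℕ → Prop
  | piece (i : ι) (σ : (A i).E →+* AlgebraicClosure K) :
      Generated A T (fun v => ((A i).poly v σ).roots) ((A i).h σ)
  | unit : Generated A T (fun _ => {1}) {0}
  | sum (R₁ R₂ : HeightOneSpectrum (𝓞 K) → Multiset (AlgebraicClosure K)) (H₁ H₂ : Multiset ℕ) :
      Generated A T R₁ H₁ → Generated A T R₂ H₂ → Generated A T (fun v => R₁ v + R₂ v) (H₁ + H₂)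
  | tensor (R₁ R₂ : HeightOneSpectrum (𝓞 K) → Multiset (AlgebraicClosure K)) (H₁ H₂ : Multiset ℕ) :
      Generated A T R₁ H₁ → Generated A T R₂ H₂ →
        Generated A T (fun v => (R₁ v ×ˢ R₂ v).map fun y => y.1 * y.2)
          ((H₁ ×ˢ H₂).map fun y => y.1 + y.2)
  | twist (j : ℕ) (R : HeightOneSpectrum (𝓞 K) → Multiset (AlgebraicClosure K)) (H : Multiset ℕ) :
      Generated A T R H → Generated A T
        (fun v => (R v).map fun x => ((Ideal.absNorm v.asIdeal : ℕ) : AlgebraicClosure K) ^ j * x)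
        (H.map fun a => j + a)
  | untwist (j : ℕ) (R : HeightOneSpectrum (𝓞 K) → Multiset (AlgebraicClosure K)) (H : Multiset ℕ) :
      Generated A T
        (fun v => (R v).map fun x => ((Ideal.absNorm v.asIdeal : ℕ) : AlgebraicClosure K) ^ j * x)
        (H.map fun a => j + a) → Generated A T R H
  | dual (w : ℕ) (R : HeightOneSpectrum (𝓞 K) → Multiset (AlgebraicClosure K)) (H : Multiset ℕ) :
      (∀ a ∈ H, a ≤ w) → Generated A T R H → Generated A T
        (fun v => (R v).map fun x => ((Ideal.absNorm v.asIdeal : ℕ) : AlgebraicClosure K) ^ w / x)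
        (H.map fun a => w - a)
  | summand (R₁ R₂ : HeightOneSpectrum (𝓞 K) → Multiset (AlgebraicClosure K)) (H₁ H₂ : Multiset ℕ) :
      Generated A T (fun v => R₁ v + R₂ v) (H₁ + H₂) → Mazur T R₁ H₁ → Mazur T R₂ H₂ →
        Generated A T R₁ H₁
  | root (m : ℕ) (R : HeightOneSpectrum (𝓞 K) → Multiset (AlgebraicClosure K)) (H : Multiset ℕ) :
      m ≠ 0 → Generated A T (fun v => power (fun x y => x * y) 1 m (R v))
        (power (fun a b => a + b) 0 m H) → Generated A T R H
  | congr (R R' : HeightOneSpectrum (𝓞 K) → Multiset (AlgebraicClosure K)) (H : Multiset ℕ) :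
      (∀ v, IsDeg1 T v → R v = R' v) → Generated A T R H → Generated A T R' H

section main

variable [Fintype ι] (A : ι → MotSystem K ℓ) (χ : GK K →* (PadicAlgCl ℓ)ˣ)
  (S : ι → Finset ℕ) (hA : ∀ i, (A i).IsMotive χ (S i)) (T : Finset ℕ)

theorem norm_p' {p : ℕ} [Fact p.Prime] (τ : AlgebraicClosure K →+* PadicAlgCl p) (j : ℕ) :
    ‖τ (((p : ℕ) : AlgebraicClosure K) ^ j)‖ = (1 / (p : ℝ)) ^ j := by
  rw [map_pow, map_natCast, norm_pow, norm_p]

include hA in
/-- the objects of the class are ordinary at the places where all the pieces are ordinary -/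
theorem generated_norm {v : HeightOneSpectrum (𝓞 K)} (hv : ∀ i, IsDeg1 (S i) v)
    (hvT : IsDeg1 T v)
    {Q : Ideal (𝓞 (AlgebraicClosure K))} (hQ : IsOver Q v) {p : ℕ} [Fact p.Prime]
    (hpe : Ideal.absNorm v.asIdeal = p) {τ : AlgebraicClosure K →+* PadicAlgCl p}
    (hτ : ∀ x : 𝓞 (AlgebraicClosure K), x ∈ Q ↔ ‖τ (x : AlgebraicClosure K)‖ < 1)
    (hno : NoExcess A v Q) {R : HeightOneSpectrum (𝓞 K) → Multiset (AlgebraicClosure K)}
    {H : Multiset ℕ} (h : Generated A T R H) :
    (R v).map (fun y => ‖τ y‖) = H.map fun a => (1 / (p : ℝ)) ^ a := by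
  have hp0 : (0 : ℝ) < 1 / (p : ℝ) := by
    have : (0 : ℝ) < p := by exact_mod_cast (Fact.out : p.Prime).pos
    positivity
  induction h with
  | piece i σ =>
    have h1 := MotSystem.roots_part (hA i) (hv i) hQ hpe hτ σ (fun k hk => hno i σ k hk)
    rw [← h1]
    have e : (A i).poly v (τ.comp σ) = ((A i).poly v σ).map τ := by
      unfold MotSystem.poly
      rw [Polynomial.map_map]
      rfl
    rw [e, Splits.roots_map (IsAlgClosed.splits _), Multiset.map_map]
    rfl
  | unit => simp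
  | sum R₁ R₂ H₁ H₂ _ _ ih₁ ih₂ =>
    rw [Multiset.map_add, Multiset.map_add, ih₁, ih₂]
  | tensor R₁ R₂ H₁ H₂ _ _ ih₁ ih₂ =>
    rw [Multiset.map_map, Multiset.map_map]
    have e1 : ((fun y => ‖τ y‖) ∘ fun y : AlgebraicClosure K × AlgebraicClosure K => y.1 * y.2) =
        (fun z : ℝ × ℝ => z.1 * z.2) ∘ fun y => (‖τ y.1‖, ‖τ y.2‖) := by
      funext y
      simp [map_mul, norm_mul]
    have e2 : ((fun a => (1 / (p : ℝ)) ^ a) ∘ fun y : ℕ × ℕ => y.1 + y.2) =
        (fun z : ℝ × ℝ => z.1 * z.2) ∘ fun y => ((1 / (p : ℝ)) ^ y.1, (1 / (p : ℝ)) ^ y.2) := by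
      funext y
      simp only [Function.comp, pow_add]
    rw [e1, e2, ← Multiset.map_map, ← Multiset.map_map,
      map_product (fun y => ‖τ y‖) (fun y => ‖τ y‖),
      map_product (fun a : ℕ => (1 / (p : ℝ)) ^ a) (fun a : ℕ => (1 / (p : ℝ)) ^ a), ih₁, ih₂]
  | twist j R H _ ih =>
    rw [Multiset.map_map, Multiset.map_map, hpe]
    have e1 : ((fun y => ‖τ y‖) ∘ fun x : AlgebraicClosure K =>
        ((p : ℕ) : AlgebraicClosure K) ^ j * x) =
        (fun z : ℝ => (1 / (p : ℝ)) ^ j * z) ∘ fun y => ‖τ y‖ := by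
      funext y
      simp only [Function.comp, map_mul, norm_mul, norm_p']
    have e2 : ((fun a => (1 / (p : ℝ)) ^ a) ∘ fun a : ℕ => j + a) =
        (fun z : ℝ => (1 / (p : ℝ)) ^ j * z) ∘ fun a => (1 / (p : ℝ)) ^ a := by
      funext a
      simp only [Function.comp, pow_add]
    rw [e1, e2, ← Multiset.map_map, ← Multiset.map_map (fun z : ℝ => (1 / (p : ℝ)) ^ j * z), ih]
  | untwist j R H _ ih =>
    rw [Multiset.map_map, Multiset.map_map, hpe] at ih
    have e1 : ((fun y => ‖τ y‖) ∘ fun x : AlgebraicClosure K =>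
        ((p : ℕ) : AlgebraicClosure K) ^ j * x) =
        (fun z : ℝ => (1 / (p : ℝ)) ^ j * z) ∘ fun y => ‖τ y‖ := by
      funext y
      simp only [Function.comp, map_mul, norm_mul, norm_p']
    have e2 : ((fun a => (1 / (p : ℝ)) ^ a) ∘ fun a : ℕ => j + a) =
        (fun z : ℝ => (1 / (p : ℝ)) ^ j * z) ∘ fun a => (1 / (p : ℝ)) ^ a := by
      funext a
      simp only [Function.comp, pow_add]
    rw [e1, e2, ← Multiset.map_map, ← Multiset.map_map (fun z : ℝ => (1 / (p : ℝ)) ^ j * z)] at ih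
    exact Multiset.map_injective (mul_right_injective₀ (pow_pos hp0 j).ne') ih
  | dual w R H hw _ ih =>
    rw [Multiset.map_map, Multiset.map_map, hpe]
    have e1 : ((fun y => ‖τ y‖) ∘ fun x : AlgebraicClosure K =>
        ((p : ℕ) : AlgebraicClosure K) ^ w / x) =
        (fun z : ℝ => (1 / (p : ℝ)) ^ w / z) ∘ fun y => ‖τ y‖ := by
      funext y
      simp only [Function.comp, map_div₀, norm_div, norm_p']
    have e2 : H.map ((fun a => (1 / (p : ℝ)) ^ a) ∘ fun a : ℕ => w - a) =
        H.map ((fun z : ℝ => (1 / (p : ℝ)) ^ w / z) ∘ fun a => (1 / (p : ℝ)) ^ a) := by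
      refine Multiset.map_congr rfl fun a ha => ?_
      simp only [Function.comp]
      rw [eq_div_iff (pow_pos hp0 a).ne', ← pow_add, Nat.sub_add_cancel (hw a ha)]
    rw [e1, e2, ← Multiset.map_map, ← Multiset.map_map (fun z : ℝ => (1 / (p : ℝ)) ^ w / z), ih]
  | summand R₁ R₂ H₁ H₂ _ hm₁ hm₂ ih =>
    obtain ⟨P₁, hP₁, hab₁⟩ := hm₁ v hvT
    obtain ⟨P₂, hP₂, hab₂⟩ := hm₂ v hvT
    have a1 := hab₁ Q hQ
    have a2 := hab₂ Q hQ
    rw [hpe] at a1 a2
    have key := Pool.Agent.R915.Ord.summand hτ 0 a1 a2 (R₁ v + R₂ v) (H₁ + H₂) ih ?_ ?_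
    · rw [← hP₁]
      exact key
    · rw [hP₁, hP₂]
      congr 1
      simp
    · congr 1
      simp
  | root m R H hm _ ih =>
    have e1 := power_map (fun x y : AlgebraicClosure K => x * y) 1 (fun x y : ℝ => x * y) 1
      (fun y => ‖τ y‖) (by simp) (fun x y => by simp [map_mul, norm_mul]) m (R v)
    have e2 := power_map (fun a b : ℕ => a + b) 0 (fun x y : ℝ => x * y) 1
      (fun a => (1 / (p : ℝ)) ^ a) (by simp) (fun x y => pow_add _ _ _) m H
    rw [e1, e2] at ih
    refine power_injective m hm _ _ ?_ ?_ ih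
    · intro x hx
      obtain ⟨y, -, rfl⟩ := Multiset.mem_map.1 hx
      exact norm_nonneg _
    · intro x hx
      obtain ⟨y, -, rfl⟩ := Multiset.mem_map.1 hx
      exact (pow_pos hp0 y).le
  | congr R R' H hRR' _ ih =>
    rw [← hRR' v hvT]
    exact ih

end main

section down

variable {K₀ : Type} [Field K₀] [NumberField K₀] [Algebra K₀ K] [Fintype ι]
  (A : ι → MotSystem K ℓ) (χ : GK K →* (PadicAlgCl ℓ)ˣ)
  (S : ι → Finset ℕ) (hA : ∀ i, (A i).IsMotive χ (S i))

/-- Over `K`, the system with the Frobenius polynomials `F` is in the class generated by the `A i`. -/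
def PotentiallyGenerated (A : ι → MotSystem K ℓ) (T : Finset ℕ)
    (F : HeightOneSpectrum (𝓞 K₀) → ℤ[X]) (H : Multiset ℕ) : Prop :=
  ∃ R : HeightOneSpectrum (𝓞 K) → Multiset (AlgebraicClosure K), Generated A T R H ∧
    ∀ (v₀ : HeightOneSpectrum (𝓞 K₀)) (v : HeightOneSpectrum (𝓞 K)),
      v.asIdeal.comap (algebraMap (𝓞 K₀) (𝓞 K)) = v₀.asIdeal → IsDeg1 T v →
        ((F v₀).map (Int.castRingHom (AlgebraicClosure K))).roots = R v

include hA in
theorem newton_of_generated {T : Finset ℕ} {F : HeightOneSpectrum (𝓞 K₀) → ℤ[X]} {H : Multiset ℕ}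
    (hF : PotentiallyGenerated A T F H) (v₀ : HeightOneSpectrum (𝓞 K₀))
    (v : HeightOneSpectrum (𝓞 K))
    (h0 : v.asIdeal.comap (algebraMap (𝓞 K₀) (𝓞 K)) = v₀.asIdeal) (hv : Good A S v)
    (hvT : Ideal.absNorm v.asIdeal ∉ T) :
    NewtonSlopes (Ideal.absNorm v₀.asIdeal) (F v₀) H := by
  obtain ⟨hv1, hvS, Q, hQ, hno⟩ := hv
  obtain ⟨R, hR, hFR⟩ := hF
  have hs := hFR v₀ v h0 ⟨hv1, hvT⟩
  rw [under_norm v hv1 v₀ h0]
  obtain ⟨p, hpe⟩ : ∃ p, Ideal.absNorm v.asIdeal = p := ⟨_, rfl⟩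
  have hpp : p.Prime := hpe ▸ hv1
  haveI : Fact p.Prime := ⟨hpp⟩
  have hpQ := norm_mem hv1 hQ.2
  rw [hpe] at hpQ ⊢
  obtain ⟨τ, hτ⟩ := exists_tau (p := p) Q hQ.1 hpQ
  have key := generated_norm A χ S hA T (fun i => ⟨hv1, hvS i⟩) ⟨hv1, hvT⟩ hQ hpe hτ hno hR
  refine ⟨inferInstance, ?_⟩
  rw [← key, ← hs]
  have e : (F v₀).map (Int.castRingHom (PadicAlgCl p)) =
      ((F v₀).map (Int.castRingHom (AlgebraicClosure K))).map τ := by
    rw [Polynomial.map_map]
    congr 1
    exact (RingHom.ext_int _ _)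
  rw [e, Splits.roots_map (IsAlgClosed.splits _), Multiset.map_map]
  rfl

end down

end Pool.Agent.Helper382_Ord
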